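import Mathlib
import Pool.Agent.MP_05b4bd_ag.Exp

open Pool.Agent.MP_05b4bd_ag

theorem Pool.Agent.Results.MP_05b4bd_ag.ExpNotComponents.result (d : ℕ) (hd : 2 ≤ d)
    (Z : Set Form) (hZ : IsComponent (M d) Z) :
    (∀ i ≤ d, ¬ Z ⊆ zcl (A d i)) ∧ ¬ Z ⊆ zcl (B d) :=
  not_component hd hZ
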