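import Mathlib
import Pool.Agent.MP_05b4bd_ag.Fermat

open MvPolynomial Pool.Agent.MP_05b4bd_ag

theorem Pool.Agent.Results.MP_05b4bd_ag.NewComponent.result (d : ℕ) (hd : 3 ≤ d) :
    ∃ Z : Set Form, IsComponent (M d) Z ∧
      (∀ (s : ℕ) (δ : Fin s → ℕ), ∑ i, δ i = d + 1 → ¬ Z ⊆ zcl (L δ)) ∧
      (∀ i ≤ d, ¬ Z ⊆ zcl (A d i)) ∧ ¬ Z ⊆ zcl (B d) ∧
      (∀ p q h : Poly, p.totalDegree ≤ 1 → q.totalDegree ≤ 1 → h.totalDegree < d →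
        dform (p ^ d + q ^ d + h) ∈ Z) ∧
      (∃ h : Poly, h.totalDegree < d ∧ Morse (X 0 ^ d + X 1 ^ d + h)) ∧
      (d = 3 → ∀ f : Poly, f.totalDegree ≤ 3 → dform f ∈ Z) :=
  main_new d hd
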