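import Mathlib
import Pool.Agent.MP_05b4bd_ag.cr.Final

open Pool.Agent.MP_05b4bd_ag MvPolynomial

theorem Pool.Agent.Results.MP_05b4bd_ag.UltraMorse.result (d : ℕ) (hd : 3 ≤ d) (f : Poly)
    (hf : f.totalDegree = d) (hs : Squarefree (homogeneousComponent d f)) (hM : Morse f)
    (Z : Set Form) :
    IsComponent (M d) Z ∧ dform f ∈ Z ↔ Z = zcl (L ![d + 1]) ∨ Z = zcl (L ![1, d]) ∨
      Syz (homogeneousComponent d f) ∧ Z = zcl (L ![1, 1, d - 1]) ∨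
      Geg d (homogeneousComponent d f) ∧ Z = zcl (L ![2, d - 1]) ∨
      (∃ n, d ≤ 2 * n + 1 ∧ n < d ∧ Epd (d - 1 - n) (homogeneousComponent d f) ∧
        Z = zcl (PN d n)) ∨
      (∃ a b, 1 ≤ a ∧ 1 ≤ b ∧ a.Coprime b ∧ Rad d (a + b) f ∧ Z = zcl (RR d a b)) ∨
      d = 3 ∧ Exo f ∧ (Z = zcl (EX 1) ∨ Z = zcl (EX 3)) :=
  CR.main_cr d hd f hf hs hM Z

/-- The earlier form, which did not say for which `f` three of the families contain `df`. -/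
example (d : ℕ) (hd : 3 ≤ d) (f : Poly)
    (hf : f.totalDegree = d) (hs : Squarefree (homogeneousComponent d f)) (hM : Morse f)
    (Z : Set Form) :
    IsComponent (M d) Z ∧ dform f ∈ Z ↔ Z = zcl (L ![d + 1]) ∨ Z = zcl (L ![1, d]) ∨
      (∃ a b, 1 ≤ a ∧ 1 ≤ b ∧ a.Coprime b ∧ Rad d (a + b) f ∧ Z = zcl (RR d a b)) ∨
      d = 3 ∧ Exo f ∧ (Z = zcl (EX 1) ∨ Z = zcl (EX 3)) ∨
      dform f ∈ Z ∧ (Z = zcl (L ![1, 1, d - 1]) ∨ Z = zcl (L ![2, d - 1]) ∨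
        ∃ n, d ≤ 2 * n + 1 ∧ n < d ∧ Z = zcl (PN d n)) := by
  obtain ⟨c1, c2, c3⟩ := CR.critA d hd f hf hs hM
  rw [Pool.Agent.Results.MP_05b4bd_ag.UltraMorse.result d hd f hf hs hM Z]
  constructor
  · rintro (e | e | ⟨h, rfl⟩ | ⟨h, rfl⟩ | ⟨n, h1, h2, h, rfl⟩ | e | e)
    exacts [.inl e, .inr (.inl e), .inr (.inr (.inr (.inr ⟨c1.2 h, .inl rfl⟩))),
      .inr (.inr (.inr (.inr ⟨c2.2 h, .inr (.inl rfl)⟩))),
      .inr (.inr (.inr (.inr ⟨(c3 n h1 h2).2 h, .inr (.inr ⟨n, h1, h2, rfl⟩)⟩))),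
      .inr (.inr (.inl e)), .inr (.inr (.inr (.inl e)))]
  · rintro (e | e | e | e | ⟨hZ, rfl | rfl | ⟨n, h1, h2, rfl⟩⟩)
    exacts [.inl e, .inr (.inl e), .inr (.inr (.inr (.inr (.inr (.inl e))))),
      .inr (.inr (.inr (.inr (.inr (.inr e))))), .inr (.inr (.inl ⟨c1.1 hZ, rfl⟩)),
      .inr (.inr (.inr (.inl ⟨c2.1 hZ, rfl⟩))),
      .inr (.inr (.inr (.inr (.inl ⟨n, h1, h2, (c3 n h1 h2).1 hZ, rfl⟩))))]
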