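import Mathlib
import Pool.Agent.MP_05b4bd_ag.wd.Final

open Pool.Agent.MP_05b4bd_ag MvPolynomial

theorem Pool.Agent.Results.MP_05b4bd_ag.WildCubic.result (Z : Set Form)
    (hZ : IsComponent (M 3) Z) : dform (X 0 * X 1 + X 0 ^ 3) ∈ Z ∨ Z ⊆ zcl FL :=
  WD.main_wd Z hZ

/-- The polynomial is admissible: degree three, one critical point, non-degenerate. -/
example : (X 0 * X 1 + X 0 ^ 3 : Poly).totalDegree = 3 ∧ Morse (X 0 * X 1 + X 0 ^ 3) := by
  have c : ∀ p : Fin 2 → ℂ, (∀ i, eval p (pderiv i (X 0 * X 1 + X 0 ^ 3 : Poly)) = 0) → p = 0 :=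
    fun p h => by
      have h0 := h 0
      have h1 := h 1
      simp at h0 h1
      rw [h1] at h0
      ext i; fin_cases i
      · exact h1
      · simpa using h0
  refine ⟨?_, fun p h => by rw [c p h]; simp [jac, dform], fun p q hp hq _ => by
    rw [c p hp, c q hq]⟩
  rw [totalDegree_add_eq_right_of_totalDegree_lt, totalDegree_X_pow]
  rw [totalDegree_X_pow]
  exact (totalDegree_mul _ _).trans_lt (by simp)
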